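import Pool.Agent.Helper31.BQ.Stmts2

/-! # BQ: the row BF -/

set_option autoImplicit false

namespace Pool.Agent.Helper39.BQ

open Filter Topology Pool.Agent.Helper31.BQ

theorem bessel {ι G : Type*} [Fintype ι] [DecidableEq ι] [Fintype G] (τ : ι → G → ℝ) (N : ℝ)
    (hN : 0 < N) (h : ∀ i j, ∑ g, τ i g * τ j g = if i = j then N else 0) (v : G → ℝ) :
    ∑ j, (N⁻¹ * ∑ g, τ j g * v g) ^ 2 ≤ N⁻¹ * ∑ g, v g ^ 2 := by
  obtain ⟨c, hc⟩ : ∃ c : ι → ℝ, ∀ j, c j = N⁻¹ * ∑ g, τ j g * v g := ⟨_, fun _ => rfl⟩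
  have hc' : ∀ j, ∑ g, τ j g * v g = N * c j := by
    intro j
    rw [hc j, ← mul_assoc, mul_inv_cancel₀ hN.ne', one_mul]
  simp only [← hc]
  have e1 : ∑ g, v g * ∑ j, c j * τ j g = N * ∑ j, c j ^ 2 := by
    have : ∀ g, v g * ∑ j, c j * τ j g = ∑ j, c j * (τ j g * v g) := by
      intro g
      rw [Finset.mul_sum]
      exact Finset.sum_congr rfl fun j _ => by ring
    rw [Finset.sum_congr rfl fun g _ => this g, Finset.sum_comm, Finset.mul_sum]
    refine Finset.sum_congr rfl fun j _ => ?_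
    rw [← Finset.mul_sum, hc' j]
    ring
  have e2 : ∑ g, (∑ j, c j * τ j g) ^ 2 = N * ∑ j, c j ^ 2 := by
    have : ∀ g, (∑ j, c j * τ j g) ^ 2 = ∑ i, ∑ j, c i * c j * (τ i g * τ j g) := by
      intro g
      rw [sq, Finset.sum_mul_sum]
      exact Finset.sum_congr rfl fun i _ => Finset.sum_congr rfl fun j _ => by ring
    rw [Finset.sum_congr rfl fun g _ => this g, Finset.sum_comm, Finset.mul_sum]
    refine Finset.sum_congr rfl fun i _ => ?_
    rw [Finset.sum_comm]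
    have : ∀ j, ∑ g, c i * c j * (τ i g * τ j g) = if i = j then N * c i ^ 2 else 0 := by
      intro j
      rw [← Finset.mul_sum, h i j]
      split_ifs with hij
      · rw [hij]; ring
      · ring
    rw [Finset.sum_congr rfl fun j _ => this j]
    simp
  have e3 : 0 ≤ ∑ g, (v g - ∑ j, c j * τ j g) ^ 2 := Finset.sum_nonneg fun _ _ => sq_nonneg _
  have e4 : ∑ g, (v g - ∑ j, c j * τ j g) ^ 2 =
      ∑ g, v g ^ 2 - 2 * ∑ g, v g * ∑ j, c j * τ j g + ∑ g, (∑ j, c j * τ j g) ^ 2 := by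
    rw [Finset.mul_sum, ← Finset.sum_sub_distrib, ← Finset.sum_add_distrib]
    exact Finset.sum_congr rfl fun g _ => by ring
  rw [e4, e1, e2] at e3
  rw [← div_eq_inv_mul, le_div_iff₀ hN]
  linarith

theorem abs_sum_le {ι : Type*} [Fintype ι] (c t : ι → ℝ) (ht : ∀ j, |t j| = 1) (B s : ℝ)
    (hB : 0 ≤ B) (hs : 0 ≤ s) (hc : ∑ j, c j ^ 2 ≤ B ^ 2)
    (hcard : (Fintype.card ι : ℝ) = s ^ 2) : |∑ j, c j * t j| ≤ B * s := by
  have h1 := Finset.sum_mul_sq_le_sq_mul_sq Finset.univ c t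
  have h2 : ∑ j, t j ^ 2 = s ^ 2 := by
    rw [← hcard, Finset.sum_congr rfl fun j _ => (sq_abs (t j)).symm]
    simp [ht]
  rw [h2] at h1
  apply abs_le_of_sq_le_sq _ (mul_nonneg hB hs)
  rw [mul_pow]
  exact h1.trans (mul_le_mul_of_nonneg_right hc (sq_nonneg s))

section
variable {H : Type} [NormedAddCommGroup H] [InnerProductSpace ℝ H]

/-- the coordinate as a linear map -/
def cdl (k : ℕ) (g : GG k) : WW H →ₗ[ℝ] H where
  toFun x := cd x k g
  map_add' x y := by simp [cd]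
  map_smul' c x := by simp [cd]

theorem cdl_apply (k : ℕ) (g : GG k) (x : WW H) : cdl k g x = cd x k g := rfl

omit [InnerProductSpace ℝ H] in
theorem norm_cd_le (x : WW H) (k : ℕ) (g : GG k) : ‖cd x k g‖ ≤ ‖x‖ :=
  (norm_le_pi_norm ((x : ∀ k, GG k → H) k) g).trans
    (lp.norm_apply_le_norm (by norm_num) x k)

/-- the coefficients -/
noncomputable def co (w : H) (J : ℕ → H →L[ℝ] H) (τ : ∀ k, Fin (2 ^ (k + 1)) → GG k → ℝ)
    (k : ℕ) (j : Fin (2 ^ (k + 1))) (x : WW H) : ℝ :=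
  ((2 : ℝ) ^ (k + 2))⁻¹ * ∑ g, τ k j g * inner ℝ w (J k (cd x k g))

theorem co_sum (w : H) (J : ℕ → H →L[ℝ] H) (τ : ∀ k, Fin (2 ^ (k + 1)) → GG k → ℝ)
    (k : ℕ) (j : Fin (2 ^ (k + 1))) {ι : Type*} [Fintype ι] (a : ι → ℝ) (y : ι → WW H) :
    co w J τ k j (∑ i, a i • y i) = ∑ i, a i * co w J τ k j (y i) := by
  unfold co
  have h1 : ∀ g, cd (∑ i, a i • y i) k g = ∑ i, a i • cd (y i) k g := by
    intro g
    have := map_sum (cdl (H := H) k g) (fun i => a i • y i) Finset.univ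
    simp only [map_smul, cdl_apply] at this
    exact this
  simp only [h1, map_sum, map_smul, inner_sum, inner_smul_right]
  simp only [Finset.mul_sum]
  rw [Finset.sum_comm]
  exact Finset.sum_congr rfl fun i _ => Finset.sum_congr rfl fun g _ => by ring

theorem co_sq (w : H) (J : ℕ → H →L[ℝ] H) (τ : ∀ k, Fin (2 ^ (k + 1)) → GG k → ℝ)
    (hw : ‖w‖ = 1) (k : ℕ) (hJ : ‖J k‖ ≤ 1)
    (h : ∀ i j, ∑ g, τ k i g * τ k j g = if i = j then (2 : ℝ) ^ (k + 2) else 0) (x : WW H) :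
    ∑ j, co w J τ k j x ^ 2 ≤ ‖x‖ ^ 2 := by
  have h1 := bessel (τ k) ((2 : ℝ) ^ (k + 2)) (by positivity) h
    (fun g => inner ℝ w (J k (cd x k g)))
  refine h1.trans ?_
  have h2 : ∀ g : GG k, (inner ℝ w (J k (cd x k g)) : ℝ) ^ 2 ≤ ‖x‖ ^ 2 := by
    intro g
    have a1 : |(inner ℝ w (J k (cd x k g)) : ℝ)| ≤ ‖x‖ := by
      calc |(inner ℝ w (J k (cd x k g)) : ℝ)| ≤ ‖w‖ * ‖J k (cd x k g)‖ := abs_real_inner_le_norm _ _
        _ ≤ 1 * (1 * ‖cd x k g‖) := by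
            rw [hw]
            exact mul_le_mul_of_nonneg_left ((J k).le_of_opNorm_le hJ _) zero_le_one
        _ ≤ ‖x‖ := by rw [one_mul, one_mul]; exact norm_cd_le x k g
    rw [← sq_abs]
    exact pow_le_pow_left₀ (abs_nonneg _) a1 2
  have h3 := Finset.sum_le_sum fun (g : GG k) (_ : g ∈ Finset.univ) => h2 g
  have hcard : ((Fintype.card (GG k) : ℕ) : ℝ) = (2 : ℝ) ^ (k + 2) := by simp [GG]
  rw [Finset.sum_const, Finset.card_univ, nsmul_eq_mul, hcard] at h3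
  rw [inv_mul_le_iff₀ (by positivity)]
  exact h3

theorem norm_comb_le (J : ℕ → H →L[ℝ] H) (e : ℕ → H)
    (σ : ∀ k, Fin (2 ^ k) → GG k → ℝ) (τ : ∀ k, Fin (2 ^ (k + 1)) → GG k → ℝ)
    (hσ : ∀ k i g, |σ k i g| = 1) (hτ : ∀ k i g, |τ k i g| = 1)
    (he : ∀ k, ‖e k‖ ≤ (k : ℝ) + 2)
    (ξ : ∀ k, Fin (2 ^ (k + 1)) → EE J σ τ) (hξ : IsEl e J σ τ ξ) (k : ℕ)
    (c : Fin (2 ^ (k + 1)) → ℝ) (B : ℝ) (hB : 0 ≤ B) (hc : ∑ j, c j ^ 2 ≤ B ^ 2) :
    ‖∑ j, c j • ξ k j‖ ≤ 2 * ((k : ℝ) + 3) * (B * Real.sqrt 2 ^ (k + 1)) := by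
  have h2 : (Real.sqrt 2) ^ 2 = 2 := Real.sq_sqrt (by norm_num)
  have hcard : ((Fintype.card (Fin (2 ^ (k + 1))) : ℕ) : ℝ) = (Real.sqrt 2 ^ (k + 1)) ^ 2 := by
    rw [← pow_mul, mul_comm, pow_mul, h2]
    simp
  have hs0 : 0 ≤ Real.sqrt 2 ^ (k + 1) := by positivity
  obtain ⟨a, ha⟩ : ∃ a : GG k → H, ∀ g, a g = (∑ j, c j * τ k j g) • e k := ⟨_, fun _ => rfl⟩
  obtain ⟨b, hb⟩ : ∃ b : GG (k + 1) → H, ∀ g, b g = (∑ j, c j * σ (k + 1) j g) • e (k + 1) :=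
    ⟨_, fun _ => rfl⟩
  have hcd : ∀ l g, cd ((∑ j, c j • ξ k j : EE J σ τ) : WW H) l g =
      ∑ j, c j • cd (ξ k j : WW H) l g := by
    intro l g
    have := map_sum (cdl (H := H) l g) (fun j => c j • (ξ k j : WW H)) Finset.univ
    simp only [map_smul, cdl_apply] at this
    rw [← this]
    congr 1
    push_cast
    rfl
  have heq : ((∑ j, c j • ξ k j : EE J σ τ) : WW H) =
      lp.single 2 k a + lp.single 2 (k + 1) b := by
    apply lp.ext
    funext l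
    funext g
    have e0 := hcd l g
    unfold cd at e0
    rw [e0, lp.coeFn_add, Pi.add_apply, Pi.add_apply]
    by_cases hl : l = k
    · subst hl
      rw [lp.single_apply_self, lp.single_apply_ne (hij := by omega), Pi.zero_apply, add_zero, ha,
        Finset.sum_smul]
      refine Finset.sum_congr rfl fun j _ => ?_
      have := (hξ l j).1 g
      unfold cd at this
      rw [this, smul_smul]
    · by_cases hl' : l = k + 1
      · subst hl'
        rw [lp.single_apply_self, lp.single_apply_ne (hij := by omega), Pi.zero_apply, zero_add,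
          hb, Finset.sum_smul]
        refine Finset.sum_congr rfl fun j _ => ?_
        have := (hξ k j).2.1 g
        unfold cd at this
        rw [this, smul_smul]
      · rw [lp.single_apply_ne (hij := hl), lp.single_apply_ne (hij := hl'), Pi.zero_apply,
          add_zero]
        refine Finset.sum_eq_zero fun j _ => ?_
        have := (hξ k j).2.2 l hl hl' g
        unfold cd at this
        rw [this, smul_zero]
  have hna : ‖a‖ ≤ ((k : ℝ) + 3) * (B * Real.sqrt 2 ^ (k + 1)) := by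
    refine (pi_norm_le_iff_of_nonneg (by positivity)).2 fun g => ?_
    rw [ha, norm_smul, Real.norm_eq_abs, mul_comm]
    have h3 := abs_sum_le c (fun j => τ k j g) (fun j => hτ k j g) B _ hB hs0 hc hcard
    exact mul_le_mul ((he k).trans (by linarith)) h3 (abs_nonneg _) (by positivity)
  have hnb : ‖b‖ ≤ ((k : ℝ) + 3) * (B * Real.sqrt 2 ^ (k + 1)) := by
    refine (pi_norm_le_iff_of_nonneg (by positivity)).2 fun g => ?_
    rw [hb, norm_smul, Real.norm_eq_abs, mul_comm]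
    have h3 := abs_sum_le c (fun j => σ (k + 1) j g) (fun j => hσ (k + 1) j g) B _ hB hs0 hc hcard
    have h4 := he (k + 1)
    push_cast at h4
    exact mul_le_mul (h4.trans (by linarith)) h3 (abs_nonneg _) (by positivity)
  have : ‖∑ j, c j • ξ k j‖ = ‖((∑ j, c j • ξ k j : EE J σ τ) : WW H)‖ := rfl
  rw [this, heq]
  refine (norm_add_le _ _).trans ?_
  rw [lp.norm_single (by norm_num), lp.norm_single (by norm_num)]
  linarith

end

theorem st_BF : ST_BF := by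
  intro H _ _ _ J e w S T hS σ τ δ hC ξ hξ R hR
  obtain ⟨hw, hJ, hJe, he, -⟩ := hS
  obtain ⟨hσ, hτ, -, hτo, -⟩ := hC
  have hfd : FiniteDimensional ℝ (LinearMap.range (R : EE J σ τ →ₗ[ℝ] EE J σ τ)) := hR
  obtain ⟨V, hV⟩ : ∃ V : Submodule ℝ (EE J σ τ),
      V = LinearMap.range (R : EE J σ τ →ₗ[ℝ] EE J σ τ) := ⟨_, rfl⟩
  rw [← hV] at hfd
  have hmem : ∀ x, R x ∈ V := by
    intro x
    rw [hV]
    exact ⟨x, rfl⟩
  obtain ⟨N, f, y, hf⟩ : ∃ (N : ℕ) (f : Fin N → EE J σ τ →L[ℝ] ℝ) (y : Fin N → EE J σ τ),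
      ∀ x, R x = ∑ i, f i x • y i := by
    refine ⟨Module.finrank ℝ V, fun i =>
      (LinearMap.toContinuousLinearMap ((Module.finBasis ℝ V).coord i)).comp
        (R.codRestrict V hmem), fun i => (Module.finBasis ℝ V i : EE J σ τ), ?_⟩
    intro x
    have h1 := (Module.finBasis ℝ V).sum_repr ⟨R x, hmem x⟩
    have h2 := congrArg (Subtype.val) h1
    refine h2.symm.trans ?_
    push_cast
    rfl
  have hbt : ∀ k, bt w J σ τ ξ k R = ∑ i, f i (((2 : ℝ) ^ (k + 1))⁻¹ •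
      ∑ j, co w J τ k j (y i : WW H) • ξ k j) := by
    intro k
    have h1 : bt w J σ τ ξ k R = ((2 : ℝ) ^ (k + 1))⁻¹ * ∑ j, co w J τ k j (R (ξ k j) : WW H) :=
      rfl
    rw [h1]
    have h2 : ∀ j, co w J τ k j (R (ξ k j) : WW H) =
        ∑ i, f i (ξ k j) * co w J τ k j (y i : WW H) := by
      intro j
      rw [hf]
      have := co_sum w J τ k j (fun i => f i (ξ k j)) (fun i => (y i : WW H))
      rw [← this]
      congr 1
      push_cast
      rfl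
    rw [Finset.sum_congr rfl fun j _ => h2 j, Finset.sum_comm, Finset.mul_sum]
    refine Finset.sum_congr rfl fun i _ => ?_
    rw [map_smul, map_sum, smul_eq_mul]
    congr 1
    refine Finset.sum_congr rfl fun j _ => ?_
    rw [map_smul, smul_eq_mul, mul_comm]
  have hbd : ∀ k, |bt w J σ τ ξ k R| ≤
      (∑ i, ‖f i‖ * (2 * ‖y i‖)) * (((k : ℝ) + 3) * (Real.sqrt 2)⁻¹ ^ (k + 1)) := by
    intro k
    rw [hbt k, Finset.sum_mul]
    refine (Finset.abs_sum_le_sum_abs _ _).trans (Finset.sum_le_sum fun i _ => ?_)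
    have h1 := norm_comb_le J e σ τ hσ hτ he ξ hξ k (fun j => co w J τ k j (y i : WW H))
      ‖y i‖ (norm_nonneg _) (co_sq w J τ hw k (hJ k) (hτo k) (y i : WW H))
    have h2 : (Real.sqrt 2) ^ 2 = 2 := Real.sq_sqrt (by norm_num)
    have hs : 0 < Real.sqrt 2 := by positivity
    have h3 : ((2 : ℝ) ^ (k + 1))⁻¹ = (Real.sqrt 2)⁻¹ ^ (k + 1) * (Real.sqrt 2)⁻¹ ^ (k + 1) := by
      rw [← mul_pow, ← mul_inv, ← sq, h2, inv_pow]
    have h4 : (Real.sqrt 2)⁻¹ ^ (k + 1) * Real.sqrt 2 ^ (k + 1) = 1 := by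
      rw [← mul_pow, inv_mul_cancel₀ hs.ne', one_pow]
    calc |f i (((2 : ℝ) ^ (k + 1))⁻¹ • ∑ j, co w J τ k j (y i : WW H) • ξ k j)| ≤
          ‖f i‖ * ‖((2 : ℝ) ^ (k + 1))⁻¹ • ∑ j, co w J τ k j (y i : WW H) • ξ k j‖ :=
          (f i).le_opNorm _
      _ = ‖f i‖ * (((2 : ℝ) ^ (k + 1))⁻¹ * ‖∑ j, co w J τ k j (y i : WW H) • ξ k j‖) := by
          rw [norm_smul, Real.norm_eq_abs, abs_of_pos (by positivity)]
      _ ≤ ‖f i‖ * (((2 : ℝ) ^ (k + 1))⁻¹ *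
          (2 * ((k : ℝ) + 3) * (‖y i‖ * Real.sqrt 2 ^ (k + 1)))) := by gcongr
      _ = ‖f i‖ * (2 * ‖y i‖) * (((k : ℝ) + 3) * (Real.sqrt 2)⁻¹ ^ (k + 1)) *
          ((Real.sqrt 2)⁻¹ ^ (k + 1) * Real.sqrt 2 ^ (k + 1)) := by rw [h3]; ring
      _ = ‖f i‖ * (2 * ‖y i‖) * (((k : ℝ) + 3) * (Real.sqrt 2)⁻¹ ^ (k + 1)) := by
          rw [h4, mul_one]
  have hr : |(Real.sqrt 2)⁻¹| < 1 := by
    rw [abs_of_pos (by positivity)]
    exact inv_lt_one_of_one_lt₀ (by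
      rw [Real.lt_sqrt (by norm_num)]
      norm_num)
  have ht1 : Tendsto (fun k : ℕ => (k : ℝ) ^ 1 * (Real.sqrt 2)⁻¹ ^ k) atTop (𝓝 0) :=
    tendsto_pow_const_mul_const_pow_of_abs_lt_one 1 hr
  have ht2 : Tendsto (fun k : ℕ => (Real.sqrt 2)⁻¹ ^ k) atTop (𝓝 0) :=
    tendsto_pow_atTop_nhds_zero_of_abs_lt_one hr
  have ht3 : Tendsto (fun k : ℕ => ((k : ℝ) + 3) * (Real.sqrt 2)⁻¹ ^ (k + 1)) atTop (𝓝 0) := by
    have := (ht1.add (ht2.const_mul 3)).mul_const (Real.sqrt 2)⁻¹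
    rw [mul_zero, add_zero, zero_mul] at this
    refine this.congr fun k => ?_
    rw [pow_succ (Real.sqrt 2)⁻¹ k]
    ring
  have ht4 := ht3.const_mul (∑ i, ‖f i‖ * (2 * ‖y i‖))
  rw [mul_zero] at ht4
  exact squeeze_zero_norm (fun k => by rw [Real.norm_eq_abs]; exact hbd k) ht4

end Pool.Agent.Helper39.BQ
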